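import Pool.Agent.U480.RF.Tow

/-! The starting subgroup of the amalgam. -/

set_option autoImplicit false
set_option linter.unusedSectionVars false
set_option linter.dupNamespace false

namespace Pool.Agent.U480.RF

open Pool.Agent.R632.VRC hiding TT
open Pool.Agent.K4H11.RFRS

universe u v

/-- the function `θ` on the cosets -/
lemma exists_theta {H P : Type u} [Group H] [Group P] (φ : H →* P) (c : H)
    (hc : ∀ h : H, ∃ n : ℤ, h = c ^ n) {A : Subgroup P} (hA : A.Normal) {m : ℕ}
    (hM : ∀ n : ℤ, φ (c ^ n) ∈ A ↔ (m : ℤ) ∣ n) :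
    ∃ θ : P ⧸ A → ℤ, ∀ (n : ℤ) x, (m : ℤ) ∣ θ (φ (c ^ n) • x) - θ x - n := by
  obtain ⟨r, g, hg, hr⟩ := exists_orbit_rep ((MulAction.toPermHom P (P ⧸ A)).comp φ)
  have hg' : ∀ x, φ (g x) • r x = x := hg
  have hr' : ∀ h x, r (φ h • x) = r x := hr
  choose jj hjj using fun x => hc (g x)
  refine ⟨jj, fun n x => ?_⟩
  have h1 : φ (c ^ (jj (φ (c ^ n) • x))) • r x = φ (c ^ n) • x := by
    have := hg' (φ (c ^ n) • x)
    rwa [hjj, hr'] at this
  have h2 : φ (c ^ (n + jj x)) • r x = φ (c ^ n) • x := by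
    rw [zpow_add, map_mul, mul_smul, ← hjj, hg']
  have h3 : φ (c ^ (-(n + jj x) + jj (φ (c ^ n) • x))) • r x = r x := by
    rw [zpow_add, map_mul, mul_smul, h1, ← h2, ← mul_smul, ← map_mul, ← zpow_add, neg_add_cancel,
      zpow_zero, map_one, one_smul]
  have h4 := (hM _).mp ((smul_eq_iff _ _).mp h3)
  convert h4 using 1
  ring

variable {G : Bool → Type u} [∀ i, Group (G i)] {H : Type u}
  [Group H] {φ : ∀ i, H →* G i} {Γ : Type u} [Group Γ] {o : ∀ i, G i →* Γ}

/-- The starting subgroup. -/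
theorem exists_base (hΓ : Amalg φ o) (c : H) (hc : ∀ h : H, ∃ n : ℤ, h = c ^ n)
    {A : ∀ k, Subgroup (G k)} (hA : ∀ k, (A k).Normal) (hAf : ∀ k, (A k).FiniteIndex) {m : ℕ}
    (hM : ∀ k (n : ℤ), φ k (c ^ n) ∈ A k ↔ (m : ℤ) ∣ n) :
    ∃ K : Subgroup Γ, K.Normal ∧ K.FiniteIndex ∧ ∀ k, Str φ o k (A k) c K := by
  classical
  choose θ hθ using fun k => exists_theta (φ k) c hc (hA k) (hM k)
  -- the action on the product
  let Ω : Type u := ∀ k, G k ⧸ A k
  have hfin : Finite Ω := by
    have : ∀ k, Finite (G k ⧸ A k) := fun k => by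
      have := hAf k
      exact Subgroup.finite_quotient_of_finiteIndex
    exact inferInstanceAs (Finite (∀ k, G k ⧸ A k))
  let act : ∀ j, G j → Ω → Ω := fun j g x => fun k =>
    if h : j = k then (h ▸ g : G k) • x k else φ k c ^ (θ j (g • x j) - θ j (x j)) • x k
  have hact1 : ∀ j g x, act j g x j = g • x j := fun j g x => dif_pos rfl
  have hact2 : ∀ j k, j ≠ k → ∀ g x, act j g x k = φ k c ^ (θ j (g • x j) - θ j (x j)) • x k :=
    fun j k hjk g x => dif_neg hjk
  have hmul : ∀ j g g' x, act j (g * g') x = act j g (act j g' x) := by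
    intro j g g' x
    funext k
    by_cases hjk : j = k
    · subst hjk
      rw [hact1, hact1, hact1, mul_smul]
    · rw [hact2 j k hjk, hact2 j k hjk, hact2 j k hjk, hact1, ← mul_smul, ← zpow_add, mul_smul]
      congr 2
      ring
  have hone : ∀ j x, act j 1 x = x := by
    intro j x
    funext k
    by_cases hjk : j = k
    · subst hjk
      rw [hact1, one_smul]
    · rw [hact2 j k hjk, one_smul, sub_self, zpow_zero, one_smul]
  have hHc : ∀ j (h : H) x k, act j (φ j h) x k = φ k h • x k := by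
    intro j h x k
    by_cases hjk : j = k
    · subst hjk
      rw [hact1]
    · obtain ⟨n, rfl⟩ := hc h
      rw [hact2 j k hjk]
      obtain ⟨a, ha⟩ := hθ j n (x j)
      have h1 : θ j (φ j (c ^ n) • x j) - θ j (x j) = n + m * a := by linarith
      rw [h1, zpow_add, mul_smul, ← map_zpow, ← map_zpow]
      congr 1
      have := hA k
      rw [smul_eq_iff, hM]
      exact dvd_mul_right _ _
  let ρ : ∀ j, G j →* Equiv.Perm Ω := fun j => MonoidHom.mk' (fun g =>
    ⟨act j g, act j g⁻¹, fun x => by rw [← hmul, inv_mul_cancel, hone],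
      fun x => by rw [← hmul, mul_inv_cancel, hone]⟩) (fun g g' => by
      apply Equiv.ext
      intro x
      exact hmul j g g' x)
  obtain ⟨F, hF⟩ := hΓ.lift (Equiv.Perm Ω) ρ (by
    intro i j h
    apply Equiv.ext
    intro x
    funext k
    show act i (φ i h) x k = act j (φ j h) x k
    rw [hHc, hHc])
  have hker : F.ker.FiniteIndex := by
    have : Finite (Equiv.Perm Ω) := inferInstance
    infer_instance
  refine ⟨F.ker, inferInstance, hker, fun k => ?_⟩
  let ω0 : Ω := fun k => QuotientGroup.mk 1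
  let P : Γ ⧸ F.ker → G k ⧸ A k := fun ν => Quotient.liftOn' ν (fun x => F x ω0 k) (by
    intro x y hxy
    show F x ω0 k = F y ω0 k
    rw [QuotientGroup.leftRel_apply, MonoidHom.mem_ker] at hxy
    have h1 : y = x * (x⁻¹ * y) := by group
    rw [h1, map_mul, hxy, mul_one])
  have hP : ∀ x : Γ, P (QuotientGroup.mk x) = F x ω0 k := fun x => rfl
  refine ⟨P, ?_, ?_⟩
  · intro g ν
    obtain ⟨x, rfl⟩ := QuotientGroup.mk_surjective ν
    show P (QuotientGroup.mk (o k g * x)) = g • P (QuotientGroup.mk x)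
    rw [hP, hP, map_mul, hF]
    exact hact1 k g _
  · intro j hj h ν
    obtain ⟨x, rfl⟩ := QuotientGroup.mk_surjective ν
    refine ⟨θ j (h • (F x ω0) j) - θ j ((F x ω0) j), ?_⟩
    show P (QuotientGroup.mk (o j h * x)) = _ • P (QuotientGroup.mk x)
    rw [hP, hP, map_mul, hF]
    exact hact2 j k hj h _

end Pool.Agent.U480.RF
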