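import Pool.Agent.U480.RF.Base

/-! Amalgams of virtually RFRS groups over cyclic groups. -/

set_option autoImplicit false
set_option linter.unusedSectionVars false
set_option linter.dupNamespace false

namespace Pool.Agent.U480.RF

open Pool.Agent.R632.VRC hiding TT
open Pool.Agent.K4H11.RFRS

universe u v

variable {G : Bool → Type u} [∀ i, Group (G i)] {H : Type u}
  [Group H] {φ : ∀ i, H →* G i} {Γ : Type u} [Group Γ] {o : ∀ i, G i →* Γ}

/-- The amalgam over an infinite cyclic group. -/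
theorem main_inf (hΓ : Amalg φ o) (hG : ∀ k, Group.FG (G k)) (hφ : ∀ k, Function.Injective (φ k))
    (c : H) (hc : ∀ h : H, ∃ n : ℤ, h = c ^ n) (hinf : ∀ n : ℤ, c ^ n = 1 → n = 0)
    (hK : ∀ k, ∃ K : Subgroup (G k), K.FiniteIndex ∧ IsRFRS K) :
    ∃ M : Subgroup Γ, M.FiniteIndex ∧ TT M := by
  choose K hKf hKr using hK
  have hφc : ∀ k (n : ℤ), (φ k c) ^ n = 1 → n = 0 := by
    intro k n hn
    apply hinf
    apply hφ k
    rw [map_zpow, hn, map_one]
  choose kk hkk0 hkk using fun k => exists_data_gen (hG k) (hKf k) (hKr k) (hφc k)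
  choose A hA hAf hAT hAc ψ hψ hψ1 using fun k => hkk k (kk (!k)) (hkk0 (!k))
  set m : ℕ := kk true * kk false with hm
  have hmk : ∀ k, kk k * kk (!k) = m := by
    intro k
    cases k
    · exact mul_comm _ _
    · rfl
  have hm0 : m ≠ 0 := (Nat.mul_pos (hkk0 true) (hkk0 false)).ne'
  have hM : ∀ k (n : ℤ), φ k (c ^ n) ∈ A k ↔ (m : ℤ) ∣ n := by
    intro k n
    rw [map_zpow, hAc k, hmk]
  have hψ1' : ∀ k, ψ k (φ k (c ^ m)) = 1 := by
    intro k
    rw [map_pow, ← hmk k]
    exact hψ1 k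
  obtain ⟨L, hLn, hLf, hLs⟩ := exists_base hΓ c hc hA hAf hM
  refine ⟨L, hLf, ?_⟩
  refine of_towers hΓ A hAT (c ^ m) ?_ ψ hψ hψ1' hLn ?_
  · intro k h
    constructor
    · intro hh
      obtain ⟨n, rfl⟩ := hc h
      obtain ⟨q, rfl⟩ := (hM k n).mp hh
      exact ⟨q, by rw [zpow_mul, zpow_natCast]⟩
    · rintro ⟨n, rfl⟩
      rw [← zpow_natCast, ← zpow_mul, hM]
      exact dvd_mul_right _ _
  · intro i
    obtain ⟨b, _, hb⟩ := towers hΓ c hc hA hm0 hM (fun k => ⟨ψ k, hψ k, hψ1' k⟩) hLn hLs i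
    refine ⟨b, fun k g hg => ?_⟩
    have := hA k
    exact mem_of_str (tw_normal (A k) i) (tw_normal L b) (hb k) hg

/-- The free product. -/
theorem main_triv (hΓ : Amalg φ o) (hH : ∀ h : H, h = 1)
    (hK : ∀ k, ∃ K : Subgroup (G k), K.FiniteIndex ∧ IsRFRS K) :
    ∃ M : Subgroup Γ, M.FiniteIndex ∧ TT M := by
  classical
  choose K hKf hKr using hK
  let A : ∀ k, Subgroup (G k) := fun k => (K k).normalCore
  have hAT : ∀ k, TT (A k) := fun k => ((hKr k).TT).mono (Subgroup.normalCore_le _)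
  have hAf : ∀ k, (A k).FiniteIndex := fun k => by
    have := hKf k
    infer_instance
  have hr : ∀ k, ∃ r : Γ →* G k, ∀ g, r (o k g) = g := by
    intro k
    obtain ⟨r, hr⟩ := hΓ.lift (G k) (fun j => if h : j = k then
      MonoidHom.mk' (fun g : G j => (h ▸ g : G k)) (by intro a b; subst h; rfl) else 1) (by
      intro i j h
      rw [hH h, map_one, map_one, map_one, map_one])
    refine ⟨r, fun g => ?_⟩
    rw [hr, dif_pos rfl]
    rfl
  choose r hr using hr
  let L : Subgroup Γ := ⨅ k, (A k).comap (r k)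
  have hLn : L.Normal := Subgroup.normal_iInf_normal fun k => inferInstance
  have hLf : L.FiniteIndex := by
    apply Subgroup.finiteIndex_iInf
    intro k
    have := hAf k
    constructor
    rw [Subgroup.index_comap]
    intro h0
    have hAn : (A k).Normal := inferInstance
    have h4 := Subgroup.relIndex_dvd_index_of_normal (A k) (r k).range
    rw [h0] at h4
    exact (hAf k).index_ne_zero (Nat.eq_zero_of_zero_dvd h4)
  have hE : ∀ i k (g : G k), o k g ∈ tw L i → g ∈ tw (A k) i := by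
    intro i k g hg
    have h1 := tw_map (K := L) (L := A k) (θ := r k) (fun a _ b _ => map_mul _ _ _)
      (fun x hx => (Subgroup.mem_iInf.mp hx) k) i _ hg
    rwa [hr] at h1
  have hone : ∀ k (g : G k), (∀ i, o k g ∈ tw L i) → g = 1 := fun k g hg =>
    hAT k g fun i => hE i k g (hg i)
  refine ⟨L, hLf, ?_⟩
  exact walk hΓ (fun i => tw L i) (fun i => tw_normal L i) (fun i => tw_succ_le L i)
    (fun i f hf x hx => ⟨ex i, two_le_ex i, dvd_of_mem hx hf⟩)
    (fun k g hg => by rw [hone k g hg, map_one])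
    (fun k g hg => by
      have h1 : g = 1 := by
        apply hone
        intro i
        obtain ⟨h, hh⟩ := hg i
        rw [hH h, map_one, map_one, inv_one, one_mul] at hh
        exact hh
      rw [h1]
      exact (φ k).range.one_mem)

end Pool.Agent.U480.RF
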