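import Pool.Agent.K4H11.RFRS.Main

/-! Cocycles: general lemmas. -/

set_option autoImplicit false
set_option linter.unusedSectionVars false
set_option linter.dupNamespace false

namespace Pool.Agent.U480.RF

open Pool.Agent.R632.VRC Pool.Agent.K4H11.RFRS

universe u v

section orbits

variable {G : Type u} [Group G] {X : Type v} (act : G →* Equiv.Perm X)

lemma exists_orbit_rep : ∃ (r : X → X) (g : X → G), (∀ x, act (g x) (r x) = x) ∧
    ∀ h x, r (act h x) = r x := by
  classical
  let S : Setoid X :=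
    { r := fun x y => ∃ h, act h x = y
      iseqv := ⟨fun x => ⟨1, by rw [map_one]; rfl⟩, by
        rintro x y ⟨h, rfl⟩
        exact ⟨h⁻¹, by rw [map_inv]; exact (act h).symm_apply_apply x⟩, by
        rintro x y z ⟨h, rfl⟩ ⟨h', rfl⟩
        exact ⟨h' * h, by rw [map_mul]; rfl⟩⟩ }
  have h1 : ∀ x, ∃ g, act g (Quotient.out (Quotient.mk S x)) = x := fun x =>
    Quotient.exact (Quotient.out_eq (Quotient.mk S x))
  choose g hg using h1
  refine ⟨fun x => Quotient.out (Quotient.mk S x), g, hg, fun h x => ?_⟩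
  have h2 : Quotient.mk S (act h x) = Quotient.mk S x :=
    (Quotient.sound (s := S) (a := x) (b := act h x) ⟨h, rfl⟩).symm
  show Quotient.out (Quotient.mk S (act h x)) = _
  rw [h2]

lemma act_mul (g h : G) (x : X) : act (g * h) x = act g (act h x) := by
  rw [map_mul]
  rfl

lemma act_inv_mul {g h : G} {x y : X} (hg : act g x = y) (hh : act h x = y) :
    act (g⁻¹ * h) x = x := by
  rw [act_mul, hh, map_inv, ← hg]
  exact (act g).symm_apply_apply x

/-- a cocycle that is trivial on the stabilizers is a coboundary -/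
lemma coboundary {z : G → X → ℤ} (hz : ∀ g g' x, z (g * g') x = z g (act g' x) + z g' x)
    (hst : ∀ g x, act g x = x → z g x = 0) : ∃ u : X → ℤ, ∀ g x, z g x = u (act g x) - u x := by
  obtain ⟨r, g, hg, hr⟩ := exists_orbit_rep act
  refine ⟨fun x => z (g x) (r x), fun h x => ?_⟩
  have h1 : act (h * g x) (r x) = act h x := by rw [act_mul, hg]
  have h2 : act (g (act h x)) (r x) = act h x := by
    have := hg (act h x)
    rwa [hr] at this
  have h3 := hst _ _ (act_inv_mul act h2 h1)
  have h4 := hz (g (act h x)) ((g (act h x))⁻¹ * (h * g x)) (r x)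
  rw [mul_inv_cancel_left, act_inv_mul act h2 h1, h3, add_zero, hz, hg] at h4
  show _ = z (g (act h x)) (r (act h x)) - z (g x) (r x)
  rw [hr]
  linarith

/-- an equivariant map to a group of cosets -/
lemma exists_equiv_map (A : Subgroup G) [hA : A.Normal] (hst : ∀ g x, act g x = x → g ∈ A) :
    ∃ s : X → G ⧸ A, ∀ g x, s (act g x) = (QuotientGroup.mk g : G ⧸ A) * s x := by
  obtain ⟨r, g, hg, hr⟩ := exists_orbit_rep act
  refine ⟨fun x => QuotientGroup.mk (g x), fun h x => ?_⟩
  have h1 : act (h * g x) (r x) = act h x := by rw [act_mul, hg]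
  have h2 : act (g (act h x)) (r x) = act h x := by
    have := hg (act h x)
    rwa [hr] at this
  show (QuotientGroup.mk (g (act h x)) : G ⧸ A) = QuotientGroup.mk (h * g x)
  rw [QuotientGroup.eq]
  exact hst _ _ (act_inv_mul act h2 h1)

end orbits

section tc

variable {P : Type u} [Group P] {A : Subgroup P}

lemma out_smul (d : P) (y : P ⧸ A) : ∃ a ∈ A, Quotient.out (d • y) = d * Quotient.out y * a := by
  refine ⟨(d * Quotient.out y)⁻¹ * Quotient.out (d • y), ?_, by group⟩
  rw [← QuotientGroup.eq, QuotientGroup.out_eq']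
  conv_rhs => rw [← QuotientGroup.out_eq' y]
  rfl

lemma smul_eq_iff [hA : A.Normal] (g : P) (y : P ⧸ A) : g • y = y ↔ g ∈ A := by
  obtain ⟨x, rfl⟩ := QuotientGroup.mk_surjective y
  show (QuotientGroup.mk (g * x) : P ⧸ A) = QuotientGroup.mk x ↔ _
  rw [eq_comm, QuotientGroup.eq]
  constructor
  · intro h
    have := hA.conj_mem _ h x
    convert this using 1
    group
  · intro h
    have := hA.conj_mem _ h x⁻¹
    convert this using 1
    group

variable (A) in
/-- the cocycle induced by a homomorphism on `A` -/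
noncomputable def tc (α : P → ℤ) (g : P) (x : P ⧸ A) : ℤ :=
  α ((Quotient.out (g • x))⁻¹ * g * Quotient.out x)

lemma tc_mem (g : P) (x : P ⧸ A) : (Quotient.out (g • x))⁻¹ * g * Quotient.out x ∈ A := by
  obtain ⟨a, ha, h⟩ := out_smul g x
  rw [h]
  have h2 : (g * Quotient.out x * a)⁻¹ * g * Quotient.out x = a⁻¹ := by group
  rw [h2]
  exact A.inv_mem ha

lemma tc_mul {α : P → ℤ} (hα : HomOn A α) (g g' : P) (x : P ⧸ A) :
    tc A α (g * g') x = tc A α g (g' • x) + tc A α g' x := by
  unfold tc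
  rw [← hα _ (tc_mem g (g' • x)) _ (tc_mem g' x), mul_smul]
  congr 1
  group

lemma tc_fix [hA : A.Normal] {α : P → ℤ} {g : P} (hg : g ∈ A) (x : P ⧸ A) :
    tc A α g x = α ((Quotient.out x)⁻¹ * g * Quotient.out x) := by
  unfold tc
  rw [(smul_eq_iff g x).mpr hg]

lemma conj_mem' [hA : A.Normal] {z : P} (hz : z ∈ A) (x : P) : x⁻¹ * z * x ∈ A := by
  have := hA.conj_mem _ hz x⁻¹
  rwa [inv_inv] at this

lemma conj_zpow' (x z : P) (n : ℤ) : x⁻¹ * z ^ n * x = (x⁻¹ * z * x) ^ n := by
  have := conj_zpow (i := n) (a := x⁻¹) (b := z)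
  rw [inv_inv] at this
  exact this.symm

/-- invariance of the periods -/
lemma lam_inv [hA : A.Normal] {β : P → ℤ} (hβ : HomOn A β) {z d : P} (hz : z ∈ A)
    (hd : d * z = z * d) (y : P ⧸ A) :
    β ((Quotient.out (d • y))⁻¹ * z * Quotient.out (d • y)) =
      β ((Quotient.out y)⁻¹ * z * Quotient.out y) := by
  obtain ⟨a, ha, h⟩ := out_smul d y
  have h2 : (Quotient.out (d • y))⁻¹ * z * Quotient.out (d • y) =
      a⁻¹ * ((Quotient.out y)⁻¹ * z * Quotient.out y) * a⁻¹⁻¹ := by
    rw [h]
    have h3 : z * d = d * z := hd.symm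
    calc (d * Quotient.out y * a)⁻¹ * z * (d * Quotient.out y * a)
        = a⁻¹ * (Quotient.out y)⁻¹ * (d⁻¹ * (z * d)) * Quotient.out y * a := by group
      _ = a⁻¹ * (Quotient.out y)⁻¹ * (d⁻¹ * (d * z)) * Quotient.out y * a := by rw [h3]
      _ = _ := by group
  rw [h2]
  exact hβ.conj (A.inv_mem ha) (conj_mem' hz _)

end tc

end Pool.Agent.U480.RF
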