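import Pool.Agent.U480.RF.Gen

/-! Products of homomorphisms of the two factors. -/

set_option autoImplicit false
set_option linter.unusedSectionVars false
set_option linter.dupNamespace false

namespace Pool.Agent.U480.RF

open Pool.Agent.R632.VRC Pool.Agent.K4H11.RFRS

universe u v

variable {G : Bool → Type u} [∀ i, Group (G i)] {H : Type u}
  [Group H] {φ : ∀ i, H →* G i} {Γ : Type u} [Group Γ] {o : ∀ i, G i →* Γ}

lemma smul_eq_self {N : Subgroup Γ} [hN : N.Normal] {x : Γ} (hx : x ∈ N) (ν : Γ ⧸ N) : x • ν = ν :=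
  (smul_eq_iff x ν).mpr hx

/-- gluing integer cocycles -/
lemma glueZ (hΓ : Amalg φ o) {N : Subgroup Γ} (z : ∀ j, G j → Γ ⧸ N → ℤ)
    (hz : ∀ j g g' ν, z j (g * g') ν = z j g (o j g' • ν) + z j g' ν)
    (hH : ∀ i j h ν, z i (φ i h) ν = z j (φ j h) ν) :
    ∃ Z : Γ → Γ ⧸ N → ℤ, (∀ x y ν, Z (x * y) ν = Z x (y • ν) + Z y ν) ∧
      ∀ j g ν, Z (o j g) ν = z j g ν := by
  let ρ : ∀ k, G k →* Wr (Γ ⧸ N) := fun k => MonoidHom.mk' (fun g =>
    ⟨MulAction.toPerm (o k g), fun q => z k g q⟩) (by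
      intro g g'
      apply Wr.ext
      · apply Equiv.ext
        intro q
        show o k (g * g') • q = o k g • (o k g' • q)
        rw [map_mul, mul_smul]
      · funext q
        rw [Wr.mul_t]
        exact hz k g g' q)
  obtain ⟨Φ, hΦ⟩ := hΓ.lift (Wr (Γ ⧸ N)) ρ (by
    intro k k' h
    apply Wr.ext
    · apply Equiv.ext
      intro q
      show o k (φ k h) • q = o k' (φ k' h) • q
      rw [hΓ.comp k k' h]
    · funext q
      exact hH k k' h q)
  have hΦs : ∀ (z : Γ) q, (Φ z).s q = z • q := by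
    intro z q
    obtain ⟨L', rfl⟩ := hΓ.gen z
    induction L' with
    | nil =>
      rw [List.map_nil, List.prod_nil, map_one, one_smul]
      rfl
    | cons p L' ih =>
      rw [List.map_cons, List.prod_cons, map_mul, Wr.mul_s, Equiv.Perm.mul_apply, ih, hΦ,
        mul_smul]
      rfl
  refine ⟨fun x ν => (Φ x).t ν, fun x y ν => ?_, fun j g ν => ?_⟩
  · show (Φ (x * y)).t ν = _
    rw [map_mul, Wr.mul_t, hΦs]
  · show (Φ (o j g)).t ν = _
    rw [hΦ]
    rfl

/-- gluing cocycles with values in a group -/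
lemma glueG (hΓ : Amalg φ o) {N : Subgroup Γ} {B : Type u} [Group B] (z : ∀ j, G j → Γ ⧸ N → B)
    (hz : ∀ j g g' ν, z j (g * g') ν = z j g (o j g' • ν) * z j g' ν)
    (hH : ∀ i j h ν, z i (φ i h) ν = z j (φ j h) ν) :
    ∃ Z : Γ → Γ ⧸ N → B, (∀ x y ν, Z (x * y) ν = Z x (y • ν) * Z y ν) ∧
      ∀ j g ν, Z (o j g) ν = z j g ν := by
  let ρ : ∀ k, G k →* WrG B (Γ ⧸ N) := fun k => MonoidHom.mk' (fun g =>
    ⟨MulAction.toPerm (o k g), fun q => z k g q⟩) (by
      intro g g'
      apply WrG.ext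
      · apply Equiv.ext
        intro q
        show o k (g * g') • q = o k g • (o k g' • q)
        rw [map_mul, mul_smul]
      · funext q
        rw [WrG.mul_t]
        exact hz k g g' q)
  obtain ⟨Φ, hΦ⟩ := hΓ.lift (WrG B (Γ ⧸ N)) ρ (by
    intro k k' h
    apply WrG.ext
    · apply Equiv.ext
      intro q
      show o k (φ k h) • q = o k' (φ k' h) • q
      rw [hΓ.comp k k' h]
    · funext q
      exact hH k k' h q)
  have hΦs : ∀ (z : Γ) q, (Φ z).s q = z • q := by
    intro z q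
    obtain ⟨L', rfl⟩ := hΓ.gen z
    induction L' with
    | nil =>
      rw [List.map_nil, List.prod_nil, map_one, one_smul]
      rfl
    | cons p L' ih =>
      rw [List.map_cons, List.prod_cons, map_mul, WrG.mul_s, Equiv.Perm.mul_apply, ih, hΦ,
        mul_smul]
      rfl
  refine ⟨fun x ν => (Φ x).t ν, fun x y ν => ?_, fun j g ν => ?_⟩
  · show (Φ (x * y)).t ν = _
    rw [map_mul, WrG.mul_t, hΦs]
  · show (Φ (o j g)).t ν = _
    rw [hΦ]
    rfl

variable (φ o) in
/-- The structure: an equivariant map to the cosets of `A` for which the other factor acts through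
powers of `c`. -/
def Str (k : Bool) (A : Subgroup (G k)) (c : H) (N : Subgroup Γ) : Prop :=
  ∃ p : Γ ⧸ N → G k ⧸ A, (∀ g ν, p (o k g • ν) = g • p ν) ∧
    ∀ j, j ≠ k → ∀ (h : G j) ν, ∃ n : ℤ, p (o j h • ν) = φ k c ^ n • p ν

/-- Step one. -/
theorem step1 (hΓ : Amalg φ o) (c : H) (A : ∀ k, Subgroup (G k)) (hA : ∀ k, (A k).Normal) (M : ℕ)
    (hM : ∀ k h, φ k h ∈ A k → ∃ n : ℤ, h = (c ^ M) ^ n) (hcM : ∀ k, φ k (c ^ M) ∈ A k)
    (hψ : ∀ k, ∃ ψ : G k → ℤ, HomOn (A k) ψ ∧ ψ (φ k (c ^ M)) = 1)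
    {N : Subgroup Γ} (hN : N.Normal) (hs : ∀ k, Str φ o k (A k) c N) {e e' : ℕ} (hee : e ∣ e')
    (k : Bool) (g : G k) (hg : o k g ∈ step e' N) : g ∈ step e (A k) := by
  classical
  choose p hp1 hp2 using hs
  choose ψ hψ hψ1 using hψ
  let ν0 : Γ ⧸ N := QuotientGroup.mk 1
  have hgN : o k g ∈ N := hg.1
  have hfix : o k g • ν0 = ν0 := smul_eq_self hgN ν0
  have hgA : g ∈ A k := (smul_eq_iff g (p k ν0)).mp (by rw [← hp1, hfix])
  refine ⟨hgA, fun α0 hα0 => ?_⟩
  let x0 : ∀ j, G j := fun j => Quotient.out (p j ν0)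
  have hconj : ∀ j (f : G j → ℤ), HomOn (A j) f →
      HomOn (A j) (fun y => f (x0 j * y * (x0 j)⁻¹)) := by
    intro j f hf
    have := HomOn_conj (hA j) hf (x0 j)⁻¹
    simpa using this
  let α : ∀ j, G j → ℤ := Function.update (fun j y => ψ j (x0 j * y * (x0 j)⁻¹)) k
    (fun y => α0 (x0 k * y * (x0 k)⁻¹))
  have hαk : α k = fun y => α0 (x0 k * y * (x0 k)⁻¹) := Function.update_self ..
  have hαj : ∀ j, j ≠ k → α j = fun y => ψ j (x0 j * y * (x0 j)⁻¹) := fun j hj =>
    Function.update_of_ne hj ..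
  have hα : ∀ j, HomOn (A j) (α j) := by
    intro j
    rcases eq_or_ne j k with rfl | hj
    · rw [hαk]
      exact hconj _ _ hα0
    · rw [hαj j hj]
      exact hconj _ _ (hψ j)
  let w : ∀ j, G j ⧸ A j → ℤ := fun j y =>
    α j ((Quotient.out y)⁻¹ * φ j (c ^ M) * Quotient.out y)
  have hcc : ∀ j (n : ℤ), φ j c ^ n * φ j (c ^ M) = φ j (c ^ M) * φ j c ^ n := by
    intro j n
    rw [← map_zpow, ← map_mul, ← map_mul]
    congr 1
    rw [← zpow_natCast, ← zpow_add, ← zpow_add, add_comm]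
  have hw : ∀ j i, i ≠ j → ∀ (h : G i) ν, w j (p j (o i h • ν)) = w j (p j ν) := by
    intro j i hij h ν
    obtain ⟨n, hn⟩ := hp2 j i hij h ν
    rw [hn]
    have := hA j
    exact lam_inv (hα j) (hcM j) (hcc j n) _
  have hnot : ∀ j : Bool, j ≠ !j := fun j => by cases j <;> decide
  -- the cocycles
  let z : ∀ j, G j → Γ ⧸ N → ℤ := fun j g ν => w (!j) (p (!j) ν) * tc (A j) (α j) g (p j ν)
  have hz : ∀ j g g' ν, z j (g * g') ν = z j g (o j g' • ν) + z j g' ν := by
    intro j g g' ν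
    show w (!j) (p (!j) ν) * tc (A j) (α j) (g * g') (p j ν) =
      w (!j) (p (!j) (o j g' • ν)) * tc (A j) (α j) g (p j (o j g' • ν)) +
      w (!j) (p (!j) ν) * tc (A j) (α j) g' (p j ν)
    rw [hw (!j) j (hnot j), hp1, tc_mul (hα j)]
    ring
  have hzM : ∀ j (n : ℤ) ν, z j (φ j ((c ^ M) ^ n)) ν = w (!j) (p (!j) ν) * (n * w j (p j ν)) := by
    intro j n ν
    show w (!j) (p (!j) ν) * tc (A j) (α j) (φ j ((c ^ M) ^ n)) (p j ν) = _
    have := hA j
    rw [tc_fix (by rw [map_zpow]; exact (A j).zpow_mem (hcM j) n), map_zpow, conj_zpow',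
      (hα j).zpow (conj_mem' (hcM j) _)]
  let act : H →* Equiv.Perm (Γ ⧸ N) :=
    (MulAction.toPermHom Γ (Γ ⧸ N)).comp ((o true).comp (φ true))
  have hact : ∀ j h ν, act h ν = o j (φ j h) • ν := by
    intro j h ν
    show o true (φ true h) • ν = _
    rw [hΓ.comp true j h]
  obtain ⟨u, hu⟩ := coboundary act (z := fun h ν => z true (φ true h) ν - z false (φ false h) ν)
    (by
      intro h h' ν
      show z true (φ true (h * h')) ν - z false (φ false (h * h')) ν = _
      rw [map_mul, map_mul, hz, hz, hact true]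
      rw [hΓ.comp false true h']
      ring)
    (by
      intro h ν hh
      have h1 : φ true h ∈ A true := by
        apply (smul_eq_iff (φ true h) (p true ν)).mp
        rw [← hp1, ← hact true, hh]
      obtain ⟨n, rfl⟩ := hM true h h1
      show z true (φ true ((c ^ M) ^ n)) ν - z false (φ false ((c ^ M) ^ n)) ν = 0
      rw [hzM, hzM]
      show w false (p false ν) * (n * w true (p true ν)) -
        w true (p true ν) * (n * w false (p false ν)) = 0
      ring)
  obtain ⟨Z, hZ1, hZ2⟩ := glueZ hΓ (N := N)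
    (fun j g ν => z j g ν - if j = true then u (o j g • ν) - u ν else 0)
    (by
      intro j g g' ν
      show z j (g * g') ν - (if j = true then u (o j (g * g') • ν) - u ν else 0) = _
      rw [hz, map_mul, mul_smul]
      split_ifs
      · ring
      · ring)
    (by
      have key : ∀ h ν, z true (φ true h) ν - (u (o true (φ true h) • ν) - u ν) =
          z false (φ false h) ν := by
        intro h ν
        have h1 := hu h ν
        rw [hact true] at h1
        have h2 : z true (φ true h) ν - z false (φ false h) ν = u (o true (φ true h) • ν) - u ν := h1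
        linarith
      intro i j h ν
      rcases i with _ | _ <;> rcases j with _ | _
      · rfl
      · show z false (φ false h) ν - (if false = true then _ else (0 : ℤ)) =
          z true (φ true h) ν - (if true = true then u (o true (φ true h) • ν) - u ν else 0)
        rw [if_pos rfl, key]
        simp
      · show z true (φ true h) ν - (if true = true then u (o true (φ true h) • ν) - u ν else 0) =
          z false (φ false h) ν - (if false = true then _ else (0 : ℤ))
        rw [if_pos rfl, key]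
        simp
      · rfl)
  have hf : HomOn N (fun x => Z x ν0) := by
    intro x _ y hy
    show Z (x * y) ν0 = Z x ν0 + Z y ν0
    rw [hZ1, smul_eq_self hy ν0]
  have hdiv := hg.2 _ hf
  have hval : Z (o k g) ν0 = α0 g := by
    rw [hZ2, hfix, sub_self, ite_self, sub_zero]
    show w (!k) (p (!k) ν0) * tc (A k) (α k) g (p k ν0) = α0 g
    have h1 : w (!k) (p (!k) ν0) = 1 := by
      show α (!k) ((x0 (!k))⁻¹ * φ (!k) (c ^ M) * x0 (!k)) = 1
      rw [hαj (!k) (Ne.symm (hnot k))]
      show ψ (!k) (x0 (!k) * ((x0 (!k))⁻¹ * φ (!k) (c ^ M) * x0 (!k)) * (x0 (!k))⁻¹) = 1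
      rw [← hψ1 (!k)]
      congr 1
      group
    have := hA k
    rw [h1, one_mul, tc_fix hgA, hαk]
    show α0 (x0 k * ((x0 k)⁻¹ * g * x0 k) * (x0 k)⁻¹) = α0 g
    congr 1
    group
  have hdiv' : (e' : ℤ) ∣ α0 g := by
    rw [← hval]
    exact hdiv
  exact (Int.natCast_dvd_natCast.mpr hee).trans hdiv'

end Pool.Agent.U480.RF
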