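import Pool.Agent.U480.RF.Step1

/-! Lifting the equivariant maps. -/

set_option autoImplicit false
set_option linter.unusedSectionVars false
set_option linter.dupNamespace false

namespace Pool.Agent.U480.RF

open Pool.Agent.R632.VRC Pool.Agent.K4H11.RFRS

universe u v

variable {G : Bool → Type u} [∀ i, Group (G i)] {H : Type u}
  [Group H] {φ : ∀ i, H →* G i} {Γ : Type u} [Group Γ] {o : ∀ i, G i →* Γ}

lemma eq_of_ne_of_ne {i j k : Bool} (hi : i ≠ k) (hj : j ≠ k) : i = j := by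
  cases i <;> cases j <;> cases k <;> simp_all

/-- The function `t`. -/
lemma exists_t (hΓ : Amalg φ o) (c : H) (hc : ∀ h : H, ∃ n : ℤ, h = c ^ n) (k : Bool)
    {A A' : Subgroup (G k)} (hA : A.Normal) {M M' : ℕ}
    (hM : ∀ n : ℤ, φ k (c ^ n) ∈ A ↔ (M : ℤ) ∣ n)
    (hM' : ∀ n : ℤ, φ k (c ^ n) ∈ A' ↔ (M' : ℤ) ∣ n)
    {N : Subgroup Γ} (hN : N.Normal) (hstab : ∀ g : G k, o k g ∈ N → g ∈ A')
    (p : Γ ⧸ N → G k ⧸ A) (hp1 : ∀ g ν, p (o k g • ν) = g • p ν)
    (hp2 : ∀ j, j ≠ k → ∀ (h : G j) ν, ∃ n : ℤ, p (o j h • ν) = φ k c ^ n • p ν) :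
    ∃ t : Γ ⧸ N → ℤ, (∀ (n : ℤ) ν, (M' : ℤ) ∣ t (o k (φ k (c ^ n)) • ν) - t ν - n) ∧
      ∀ j, j ≠ k → ∀ (h : G j) ν, p (o j h • ν) = φ k c ^ (t (o j h • ν) - t ν) • p ν := by
  classical
  obtain ⟨r, g, hg, hr⟩ := exists_orbit_rep ((MulAction.toPermHom Γ (Γ ⧸ N)).comp (o (!k)))
  have hg' : ∀ ν, o (!k) (g ν) • r ν = ν := hg
  have hr' : ∀ h ν, r (o (!k) h • ν) = r ν := hr
  have hnk : (!k) ≠ k := by cases k <;> decide
  choose ti hti using fun ν => hp2 (!k) hnk (g ν) (r ν)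
  simp only [hg'] at hti
  have hT2 : ∀ (h : G (!k)) ν, p (o (!k) h • ν) = φ k c ^ (ti (o (!k) h • ν) - ti ν) • p ν := by
    intro h ν
    have h1 := hti (o (!k) h • ν)
    rw [hr'] at h1
    have h2 := hti ν
    rw [h1]
    conv_rhs => rw [h2]
    rw [← mul_smul, ← zpow_add]
    congr 2
    ring
  obtain ⟨rH, gH, hgH, hrH⟩ :=
    exists_orbit_rep ((MulAction.toPermHom Γ (Γ ⧸ N)).comp ((o k).comp (φ k)))
  have hgH' : ∀ ν, o k (φ k (gH ν)) • rH ν = ν := hgH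
  have hrH' : ∀ h ν, rH (o k (φ k h) • ν) = rH ν := hrH
  choose jj hjj using fun ν => hc (gH ν)
  have hstabH : ∀ (n : ℤ) (ν : Γ ⧸ N), o k (φ k (c ^ n)) • ν = ν → (M' : ℤ) ∣ n := by
    intro n ν hn
    rw [← hM']
    exact hstab _ ((smul_eq_iff _ ν).mp hn)
  have hjj' : ∀ ν, o k (φ k (c ^ (jj ν))) • rH ν = ν := by
    intro ν
    rw [← hjj]
    exact hgH' ν
  have hpow : ∀ (m n : ℤ) (ν : Γ ⧸ N), o k (φ k (c ^ (m + n))) • ν =
      o k (φ k (c ^ m)) • o k (φ k (c ^ n)) • ν := by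
    intro m n ν
    rw [zpow_add, map_mul, map_mul, mul_smul]
  refine ⟨fun ν => ti (rH ν) + jj ν, ?_, ?_⟩
  · intro n ν
    show (M' : ℤ) ∣ ti (rH (o k (φ k (c ^ n)) • ν)) + jj (o k (φ k (c ^ n)) • ν) -
      (ti (rH ν) + jj ν) - n
    rw [hrH']
    have h1 := hjj' (o k (φ k (c ^ n)) • ν)
    rw [hrH'] at h1
    have h2 : o k (φ k (c ^ (n + jj ν))) • rH ν = o k (φ k (c ^ n)) • ν := by
      rw [hpow, hjj']
    have h3 : o k (φ k (c ^ (-(n + jj ν) + jj (o k (φ k (c ^ n)) • ν)))) • rH ν = rH ν := by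
      rw [hpow, h1, ← h2, ← hpow, neg_add_cancel, zpow_zero, map_one, map_one, one_smul]
    have h4 := hstabH _ _ h3
    convert h4 using 1
    ring
  · intro j hj h ν
    obtain rfl := eq_of_ne_of_ne hj hnk
    have key : ∀ ν, (M : ℤ) ∣ ti ν - (ti (rH ν) + jj ν) := by
      intro ν
      have h1 : p ν = φ k c ^ (jj ν) • p (rH ν) := by
        conv_lhs => rw [← hjj' ν]
        rw [hp1, map_zpow]
      have h2 : p ν = φ k c ^ (ti ν - ti (rH ν)) • p (rH ν) := by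
        have h3 := hT2 (φ (!k) (c ^ (jj ν))) (rH ν)
        rw [hΓ.comp (!k) k, hjj'] at h3
        exact h3
      rw [← hM, map_zpow]
      have h4 : φ k c ^ (ti ν - (ti (rH ν) + jj ν)) • p (rH ν) = p (rH ν) := by
        have h5 : ti ν - (ti (rH ν) + jj ν) = -(jj ν) + (ti ν - ti (rH ν)) := by ring
        rw [h5, zpow_add, mul_smul, ← h2, h1, ← mul_smul, ← zpow_add, neg_add_cancel, zpow_zero,
          one_smul]
      exact (smul_eq_iff _ _).mp h4
    show p (o (!k) h • ν) = φ k c ^ ((ti (rH (o (!k) h • ν)) + jj (o (!k) h • ν)) -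
      (ti (rH ν) + jj ν)) • p ν
    obtain ⟨a, ha⟩ := key ν
    obtain ⟨b, hb⟩ := key (o (!k) h • ν)
    rw [hT2]
    have h6 : (ti (rH (o (!k) h • ν)) + jj (o (!k) h • ν)) - (ti (rH ν) + jj ν) =
        (ti (o (!k) h • ν) - ti ν) + M * (a - b) := by
      rw [mul_sub, ← ha, ← hb]
      ring
    rw [h6, zpow_add, mul_smul]
    congr 1
    symm
    rw [smul_eq_iff, ← map_zpow, hM]
    exact dvd_mul_right _ _

/-- Step two. -/
theorem step2 (hΓ : Amalg φ o) (c : H) (hc : ∀ h : H, ∃ n : ℤ, h = c ^ n) (k : Bool)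
    {A : Subgroup (G k)} (hA : A.Normal) {e e' : ℕ} (hee : e ∣ e') {M M' : ℕ}
    (hM : ∀ n : ℤ, φ k (c ^ n) ∈ A ↔ (M : ℤ) ∣ n)
    (hM' : ∀ n : ℤ, φ k (c ^ n) ∈ step e A ↔ (M' : ℤ) ∣ n)
    {N N' : Subgroup Γ} (hN' : N'.Normal) (hNN : N' ≤ N)
    (hstab : ∀ g : G k, o k g ∈ N' → g ∈ step e A) (hs : Str φ o k A c N) :
    Str φ o k (step e A) c (step e' N') := by
  classical
  obtain ⟨p0, hp01, hp02⟩ := hs
  have hA' : (step e A).Normal := step_normal e A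
  -- the pulled back map
  let q : Γ ⧸ N' → Γ ⧸ N := Subgroup.quotientMapOfLE hNN
  have hq : ∀ (x : Γ) ν, q (x • ν) = x • q ν := by
    intro x ν
    obtain ⟨y, rfl⟩ := QuotientGroup.mk_surjective ν
    rfl
  let p : Γ ⧸ N' → G k ⧸ A := fun ν => p0 (q ν)
  have hp1 : ∀ g ν, p (o k g • ν) = g • p ν := by
    intro g ν
    show p0 (q (o k g • ν)) = g • p0 (q ν)
    rw [hq, hp01]
  have hp2 : ∀ j, j ≠ k → ∀ (h : G j) ν, ∃ n : ℤ, p (o j h • ν) = φ k c ^ n • p ν := by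
    intro j hj h ν
    obtain ⟨n, hn⟩ := hp02 j hj h (q ν)
    refine ⟨n, ?_⟩
    show p0 (q (o j h • ν)) = _
    rw [hq, hn]
  obtain ⟨t, hT1, hT2⟩ := exists_t hΓ c hc k hA hM hM' hN' hstab p hp1 hp2
  -- the equivariant map to the smaller cosets
  obtain ⟨s, hs⟩ := exists_equiv_map ((MulAction.toPermHom Γ (Γ ⧸ N')).comp (o k)) (step e A)
    (fun g ν h => hstab g ((smul_eq_iff _ ν).mp h))
  have hs' : ∀ g ν, s (o k g • ν) = (QuotientGroup.mk g : G k ⧸ step e A) * s ν := hs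
  let π : G k ⧸ step e A →* G k ⧸ A := QuotientGroup.map (step e A) A (MonoidHom.id _)
    (fun x hx => hx.1)
  have hπ : ∀ g : G k, π (QuotientGroup.mk g) = QuotientGroup.mk g := fun g => rfl
  have hsm : ∀ (g : G k) (x : G k ⧸ A), g • x = (QuotientGroup.mk g : G k ⧸ A) * x := by
    intro g x
    obtain ⟨y, rfl⟩ := QuotientGroup.mk_surjective x
    rfl
  let C : G k ⧸ step e A := QuotientGroup.mk (φ k c)
  let C0 : G k ⧸ A := QuotientGroup.mk (φ k c)
  have hCn : ∀ n : ℤ, C ^ n = QuotientGroup.mk (φ k (c ^ n)) := by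
    intro n
    rw [map_zpow]
    rfl
  have hC0n : ∀ n : ℤ, C0 ^ n = QuotientGroup.mk (φ k c ^ n) := fun n => rfl
  have hπC : ∀ n : ℤ, π (C ^ n) = C0 ^ n := by
    intro n
    rw [map_zpow]
    rfl
  let ε : Γ ⧸ N' → G k ⧸ A := fun ν => (π (s ν))⁻¹ * p ν
  have hε : ∀ g ν, ε (o k g • ν) = ε ν := by
    intro g ν
    show (π (s (o k g • ν)))⁻¹ * p (o k g • ν) = (π (s ν))⁻¹ * p ν
    rw [hs', hp1, hsm, map_mul, hπ, mul_inv_rev, mul_assoc, inv_mul_cancel_left]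
  let σ : Γ ⧸ N' → G k ⧸ step e A := fun ν => s ν * QuotientGroup.mk (Quotient.out (ε ν))
  have hσ1 : ∀ g ν, σ (o k g • ν) = (QuotientGroup.mk g : G k ⧸ step e A) * σ ν := by
    intro g ν
    show s (o k g • ν) * QuotientGroup.mk (Quotient.out (ε (o k g • ν))) = _
    rw [hs', hε, mul_assoc]
  have hσ2 : ∀ ν, π (σ ν) = p ν := by
    intro ν
    show π (s ν * QuotientGroup.mk (Quotient.out (ε ν))) = p ν
    rw [map_mul, hπ, QuotientGroup.out_eq']
    show π (s ν) * ((π (s ν))⁻¹ * p ν) = p ν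
    rw [mul_inv_cancel_left]
  let κ : Γ ⧸ N' → G k ⧸ A := fun ν => C0 ^ (-(t ν)) * p ν
  have hκ : ∀ j, j ≠ k → ∀ (h : G j) ν, κ (o j h • ν) = κ ν := by
    intro j hj h ν
    show C0 ^ (-(t (o j h • ν))) * p (o j h • ν) = C0 ^ (-(t ν)) * p ν
    rw [hT2 j hj, hsm, ← hC0n, ← mul_assoc, ← zpow_add]
    congr 2
    ring
  let σ' : Γ ⧸ N' → G k ⧸ step e A := fun ν => C ^ (t ν) * QuotientGroup.mk (Quotient.out (κ ν))
  have hσ'1 : ∀ j, j ≠ k → ∀ (h : G j) ν,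
      σ' (o j h • ν) = C ^ (t (o j h • ν) - t ν) * σ' ν := by
    intro j hj h ν
    show C ^ (t (o j h • ν)) * QuotientGroup.mk (Quotient.out (κ (o j h • ν))) =
      C ^ (t (o j h • ν) - t ν) * (C ^ (t ν) * QuotientGroup.mk (Quotient.out (κ ν)))
    rw [hκ j hj, ← mul_assoc, ← zpow_add, sub_add_cancel]
  have hσ'2 : ∀ ν, π (σ' ν) = p ν := by
    intro ν
    show π (C ^ (t ν) * QuotientGroup.mk (Quotient.out (κ ν))) = p ν
    rw [map_mul, hπ, QuotientGroup.out_eq', hπC]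
    show C0 ^ (t ν) * (C0 ^ (-(t ν)) * p ν) = p ν
    rw [← mul_assoc, ← zpow_add, add_neg_cancel, zpow_zero, one_mul]
  have hCt : ∀ (n : ℤ) ν, C ^ (t (o k (φ k (c ^ n)) • ν) - t ν) = C ^ n := by
    intro n ν
    obtain ⟨a, ha⟩ := hT1 n ν
    have h1 : t (o k (φ k (c ^ n)) • ν) - t ν = n + M' * a := by linarith
    have h2 : C ^ ((M' : ℤ) * a) = 1 := by
      rw [hCn, QuotientGroup.eq_one_iff, hM']
      exact dvd_mul_right _ _
    rw [h1, zpow_add, h2, mul_one]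
  let δ : Γ ⧸ N' → G k ⧸ step e A := fun ν => (σ ν)⁻¹ * σ' ν
  have hnk : (!k) ≠ k := by cases k <;> decide
  have hδ : ∀ (h : H) ν, δ (o k (φ k h) • ν) = δ ν := by
    intro h ν
    obtain ⟨n, rfl⟩ := hc h
    show (σ (o k (φ k (c ^ n)) • ν))⁻¹ * σ' (o k (φ k (c ^ n)) • ν) = (σ ν)⁻¹ * σ' ν
    rw [hσ1]
    have h1 := hσ'1 (!k) hnk (φ (!k) (c ^ n)) ν
    rw [hΓ.comp (!k) k, hCt] at h1
    rw [h1, mul_inv_rev, ← hCn, mul_assoc, inv_mul_cancel_left]
  let d : Γ ⧸ N' → G k := fun ν => Quotient.out (δ ν)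
  have hd1 : ∀ ν, (QuotientGroup.mk (d ν) : G k ⧸ step e A) = δ ν := fun ν =>
    QuotientGroup.out_eq' _
  have hd2 : ∀ ν, d ν ∈ A := by
    intro ν
    rw [← QuotientGroup.eq_one_iff, ← hπ, hd1]
    show π ((σ ν)⁻¹ * σ' ν) = 1
    rw [map_mul, map_inv, hσ2, hσ'2, inv_mul_cancel]
  have hd3 : ∀ (h : H) ν, d (o k (φ k h) • ν) = d ν := by
    intro h ν
    show Quotient.out (δ (o k (φ k h) • ν)) = _
    rw [hδ]
  -- the cocycle with values in the finite group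
  let z : ∀ j, G j → Γ ⧸ N' → G k ⧸ step e A := fun j g ν =>
    if h : j = k then QuotientGroup.mk (h ▸ g) else C ^ (t (o j g • ν) - t ν)
  have hzk : ∀ g ν, z k g ν = QuotientGroup.mk g := fun g ν => dif_pos rfl
  have hzj : ∀ j, j ≠ k → ∀ g ν, z j g ν = C ^ (t (o j g • ν) - t ν) := fun j hj g ν =>
    dif_neg hj
  have hzH : ∀ j (h : H) ν, z j (φ j h) ν = QuotientGroup.mk (φ k h) := by
    intro j h ν
    by_cases hj : j = k
    · subst hj
      exact hzk _ _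
    · obtain ⟨n, rfl⟩ := hc h
      rw [hzj j hj, hΓ.comp j k, hCt, hCn]
  obtain ⟨R, hR1, hR2⟩ := glueG hΓ (N := N') z (by
    intro j g g' ν
    by_cases hj : j = k
    · subst hj
      rw [hzk, hzk, hzk]
      rfl
    · rw [hzj j hj, hzj j hj, hzj j hj, ← zpow_add, map_mul, mul_smul]
      congr 1
      ring) (by
    intro i j h ν
    rw [hzH, hzH])
  have hRone : ∀ ν, R 1 ν = 1 := by
    intro ν
    have := hR1 1 1 ν
    rw [one_smul, mul_one] at this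
    exact left_eq_mul.mp this
  -- the integer cocycles
  have hZ : ∀ α : G k → ℤ, HomOn A α → ∃ Z : Γ → Γ ⧸ N' → ℤ,
      (∀ x y ν, Z (x * y) ν = Z x (y • ν) + Z y ν) ∧
      ∀ j g ν, Z (o j g) ν = if j = k then 0 else α (d (o j g • ν)) - α (d ν) := by
    intro α hα
    refine glueZ hΓ (N := N') (fun j g ν => if j = k then 0 else α (d (o j g • ν)) - α (d ν)) ?_ ?_
    · intro j g g' ν
      show (if j = k then 0 else α (d (o j (g * g') • ν)) - α (d ν)) =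
        (if j = k then 0 else α (d (o j g • o j g' • ν)) - α (d (o j g' • ν))) +
        (if j = k then 0 else α (d (o j g' • ν)) - α (d ν))
      rw [map_mul, mul_smul]
      split_ifs
      · ring
      · ring
    · intro i j h ν
      have h1 : ∀ j, (if j = k then 0 else α (d (o j (φ j h) • ν)) - α (d ν)) = 0 := by
        intro j
        rw [hΓ.comp j k, hd3, sub_self, ite_self]
      show (if i = k then 0 else α (d (o i (φ i h) • ν)) - α (d ν)) =
        (if j = k then 0 else α (d (o j (φ j h) • ν)) - α (d ν))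
      rw [h1, h1]
  choose Z hZ1 hZ2 using hZ
  have hZone : ∀ α (hα : HomOn A α) ν, Z α hα 1 ν = 0 := by
    intro α hα ν
    have := hZ1 α hα 1 1 ν
    rw [one_smul, mul_one] at this
    linarith
  -- the comparison
  have hcomp : ∀ x ν, ∃ v ∈ A, (QuotientGroup.mk v : G k ⧸ step e A) =
      (σ (x • ν))⁻¹ * R x ν * σ ν ∧ ∀ α (hα : HomOn A α), α v = Z α hα x ν := by
    intro x
    obtain ⟨L, rfl⟩ := hΓ.gen x
    induction L with
    | nil =>
      intro ν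
      refine ⟨1, A.one_mem, ?_, fun α hα => ?_⟩
      · rw [List.map_nil, List.prod_nil, hRone, one_smul, mul_one, inv_mul_cancel]
        rfl
      · rw [List.map_nil, List.prod_nil, hZone, hα.one]
    | cons jg L ih =>
      intro ν
      obtain ⟨j, g⟩ := jg
      rw [List.map_cons, List.prod_cons]
      show ∃ v ∈ A, (QuotientGroup.mk v : G k ⧸ step e A) =
        (σ ((o j g * (L.map fun p => o p.1 p.2).prod) • ν))⁻¹ *
          R (o j g * (L.map fun p => o p.1 p.2).prod) ν * σ ν ∧ ∀ α (hα : HomOn A α),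
            α v = Z α hα (o j g * (L.map fun p => o p.1 p.2).prod) ν
      obtain ⟨v, hvA, hv1, hv2⟩ := ih ν
      generalize (L.map fun p => o p.1 p.2).prod = y at hv1 hv2 ⊢
      by_cases hj : j = k
      · subst hj
        refine ⟨v, hvA, ?_, fun α hα => ?_⟩
        · have e1 : ∀ a b r s : G j ⧸ step e A, a⁻¹ * r * s = (b * a)⁻¹ * (b * r) * s := by
            intros
            group
          rw [hv1, hR1, mul_smul, hσ1, hR2, hzk]
          exact e1 _ _ _ _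
        · rw [hv2 α hα, hZ1, hZ2, if_pos rfl, zero_add]
      · refine ⟨d (o j g • y • ν) * (d (y • ν))⁻¹ * v,
          A.mul_mem (A.mul_mem (hd2 _) (A.inv_mem (hd2 _))) hvA, ?_, fun α hα => ?_⟩
        · have h1 : (QuotientGroup.mk (d (o j g • y • ν) * (d (y • ν))⁻¹ * v) :
              G k ⧸ step e A) = δ (o j g • y • ν) * (δ (y • ν))⁻¹ * QuotientGroup.mk v := by
            rw [← hd1, ← hd1]
            rfl
          rw [h1, hv1, hR1, mul_smul, hR2, hzj j hj]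
          show (σ (o j g • y • ν))⁻¹ * σ' (o j g • y • ν) * ((σ (y • ν))⁻¹ * σ' (y • ν))⁻¹ *
            ((σ (y • ν))⁻¹ * R y ν * σ ν) = _
          rw [hσ'1 j hj]
          group
        · rw [hZ1, hZ2, if_neg hj, ← hv2 α hα,
            hα _ (A.mul_mem (hd2 _) (A.inv_mem (hd2 _))) _ hvA, hα _ (hd2 _) _ (A.inv_mem (hd2 _)),
            hα.inv (hd2 _)]
          ring
  have hRN : ∀ x ∈ step e' N', ∀ ν, R x ν = 1 := by
    intro x hx ν
    obtain ⟨v, hvA, hv1, hv2⟩ := hcomp x ν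
    rw [smul_eq_self hx.1 ν] at hv1
    have h1 : v ∈ step e A := by
      refine ⟨hvA, fun α hα => ?_⟩
      rw [hv2 α hα]
      refine (Int.natCast_dvd_natCast.mpr hee).trans ?_
      refine hx.2 (fun x => Z α hα x ν) ?_
      intro a _ b hb
      show Z α hα (a * b) ν = Z α hα a ν + Z α hα b ν
      rw [hZ1, smul_eq_self hb ν]
    have h2 : (QuotientGroup.mk v : G k ⧸ step e A) = 1 := (QuotientGroup.eq_one_iff v).mpr h1
    rw [h2] at hv1
    calc R x ν = σ ν * ((σ ν)⁻¹ * R x ν * σ ν) * (σ ν)⁻¹ := by group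
      _ = 1 := by rw [← hv1]; group
  -- the new map
  let ν0 : Γ ⧸ N' := QuotientGroup.mk 1
  let P : Γ ⧸ step e' N' → G k ⧸ step e A := fun ν => Quotient.liftOn' ν (fun x => R x ν0) (by
    intro x y hxy
    show R x ν0 = R y ν0
    rw [QuotientGroup.leftRel_apply] at hxy
    have h1 : y = x * (x⁻¹ * y) := by group
    rw [h1, hR1, hRN _ hxy, mul_one, smul_eq_self hxy.1 ν0])
  have hP : ∀ x : Γ, P (QuotientGroup.mk x) = R x ν0 := fun x => rfl
  refine ⟨P, ?_, ?_⟩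
  · intro g ν
    obtain ⟨x, rfl⟩ := QuotientGroup.mk_surjective ν
    show P (QuotientGroup.mk (o k g * x)) = g • P (QuotientGroup.mk x)
    rw [hP, hP, hR1, hR2, hzk]
    obtain ⟨y, hy⟩ := QuotientGroup.mk_surjective (R x ν0)
    rw [← hy]
    rfl
  · intro j hj h ν
    obtain ⟨x, rfl⟩ := QuotientGroup.mk_surjective ν
    refine ⟨t (o j h • x • ν0) - t (x • ν0), ?_⟩
    show P (QuotientGroup.mk (o j h * x)) = _ • P (QuotientGroup.mk x)
    rw [hP, hP, hR1, hR2, hzj j hj]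
    obtain ⟨y, hy⟩ := QuotientGroup.mk_surjective (R x ν0)
    rw [← hy]
    rfl

end Pool.Agent.U480.RF
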