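import Pool.Agent.U480.RF.Step2

/-! The towers of the amalgam and of the factors. -/

set_option autoImplicit false
set_option linter.unusedSectionVars false
set_option linter.dupNamespace false

namespace Pool.Agent.U480.RF

open Pool.Agent.R632.VRC hiding TT
open Pool.Agent.K4H11.RFRS

universe u v

variable {G : Bool → Type u} [∀ i, Group (G i)] {H : Type u}
  [Group H] {φ : ∀ i, H →* G i} {Γ : Type u} [Group Γ] {o : ∀ i, G i →* Γ}

/-- the exponents of the powers of `c` in the towers -/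
def mm (m : ℕ) : ℕ → ℕ
  | 0 => m
  | i + 1 => mm m i * ex i

lemma levels (c : H) {A : ∀ k, Subgroup (G k)} {m : ℕ} (hm : m ≠ 0)
    (hM : ∀ k (n : ℤ), φ k (c ^ n) ∈ A k ↔ (m : ℤ) ∣ n)
    (hψ : ∀ k, ∃ ψ : G k → ℤ, HomOn (A k) ψ ∧ ψ (φ k (c ^ m)) = 1) (i : ℕ) :
    mm m i ≠ 0 ∧ (∀ k (n : ℤ), φ k (c ^ n) ∈ tw (A k) i ↔ (mm m i : ℤ) ∣ n) ∧
      ∀ k, ∃ ψ : G k → ℤ, HomOn (tw (A k) i) ψ ∧ ψ (φ k (c ^ mm m i)) = 1 := by
  induction i with
  | zero => exact ⟨hm, hM, hψ⟩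
  | succ i ih =>
    obtain ⟨ih0, ih1, ih2⟩ := ih
    have hmem : ∀ k, φ k (c ^ mm m i) ∈ tw (A k) i := by
      intro k
      rw [← zpow_natCast, ih1]
    have hval : ∀ k (f : G k → ℤ), HomOn (tw (A k) i) f → ∀ r : ℤ,
        f (φ k (c ^ ((mm m i : ℤ) * r))) = r * f (φ k (c ^ mm m i)) := by
      intro k f hf r
      rw [zpow_mul, zpow_natCast, map_zpow, hf.zpow (hmem k)]
    have hex : (ex i : ℤ) ≠ 0 := by exact_mod_cast ex_ne_zero i
    refine ⟨mul_ne_zero ih0 (ex_ne_zero i), ?_, ?_⟩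
    · intro k n
      show φ k (c ^ n) ∈ step (ex i) (tw (A k) i) ↔ ((mm m i * ex i : ℕ) : ℤ) ∣ n
      push_cast
      constructor
      · intro h
        obtain ⟨r, rfl⟩ := (ih1 k n).mp h.1
        obtain ⟨ψ, hψ, hψ1⟩ := ih2 k
        have h2 := h.2 ψ hψ
        rw [hval k ψ hψ, hψ1, mul_one] at h2
        exact mul_dvd_mul_left _ h2
      · rintro ⟨r, rfl⟩
        have h1 : (mm m i : ℤ) * ex i * r = mm m i * (ex i * r) := by ring
        rw [h1]
        refine ⟨(ih1 k _).mpr (dvd_mul_right _ _), fun f hf => ?_⟩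
        rw [hval k f hf]
        exact ⟨r * f (φ k (c ^ mm m i)), by ring⟩
    · intro k
      obtain ⟨ψ, hψ, hψ1⟩ := ih2 k
      refine ⟨fun x => ψ x / ex i, HomOn_div (hψ.mono (step_le _ _)) fun x hx => hx.2 ψ hψ, ?_⟩
      show ψ (φ k (c ^ (mm m i * ex i))) / ex i = 1
      have h1 := hval k ψ hψ (ex i)
      rw [hψ1, mul_one] at h1
      have h2 : c ^ (mm m i * ex i) = c ^ ((mm m i : ℤ) * (ex i : ℤ)) := by
        rw [← zpow_natCast]
        push_cast
        rfl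
      rw [h2, h1]
      exact Int.ediv_self hex

lemma ex_dvd {i j : ℕ} (h : i ≤ j) : ex i ∣ ex j := Nat.factorial_dvd_factorial (by omega)

/-- The induction. -/
theorem towers (hΓ : Amalg φ o) (c : H) (hc : ∀ h : H, ∃ n : ℤ, h = c ^ n)
    {A : ∀ k, Subgroup (G k)} (hA : ∀ k, (A k).Normal) {m : ℕ} (hm : m ≠ 0)
    (hM : ∀ k (n : ℤ), φ k (c ^ n) ∈ A k ↔ (m : ℤ) ∣ n)
    (hψ : ∀ k, ∃ ψ : G k → ℤ, HomOn (A k) ψ ∧ ψ (φ k (c ^ m)) = 1)
    {K : Subgroup Γ} (hK : K.Normal) (hs : ∀ k, Str φ o k (A k) c K) (i : ℕ) :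
    ∃ b, i ≤ b ∧ ∀ k, Str φ o k (tw (A k) i) c (tw K b) := by
  induction i with
  | zero => exact ⟨0, le_rfl, hs⟩
  | succ i ih =>
    obtain ⟨b, hib, hb⟩ := ih
    obtain ⟨h0, h1, h2⟩ := levels c hm hM hψ i
    obtain ⟨h0', h1', h2'⟩ := levels c hm hM hψ (i + 1)
    have hN : (tw K b).Normal := tw_normal K b
    have hAi : ∀ k, (tw (A k) i).Normal := fun k => by
      have := hA k
      exact tw_normal (A k) i
    have hmem : ∀ k, φ k (c ^ mm m i) ∈ tw (A k) i := by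
      intro k
      rw [← zpow_natCast, h1]
    have key : ∀ k (g : G k), o k g ∈ tw K (b + 1) → g ∈ tw (A k) (i + 1) := by
      intro k g hg
      refine step1 hΓ c (fun k => tw (A k) i) hAi (mm m i) ?_ hmem h2 hN hb (ex_dvd hib) k g hg
      intro k h hh
      obtain ⟨n, rfl⟩ := hc h
      obtain ⟨r, rfl⟩ := (h1 k n).mp hh
      exact ⟨r, by rw [zpow_mul, zpow_natCast]⟩
    refine ⟨b + 1 + 1, by omega, fun k => ?_⟩
    exact step2 hΓ c hc k (hAi k) (ex_dvd (show i ≤ b + 1 by omega)) (h1 k) (h1' k)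
      (tw_normal K (b + 1)) (tw_succ_le K b) (key k) (hb k)

lemma mem_of_str {k : Bool} {A : Subgroup (G k)} (hA : A.Normal) {c : H} {N : Subgroup Γ}
    (hN : N.Normal) (hs : Str φ o k A c N) {g : G k} (hg : o k g ∈ N) : g ∈ A := by
  obtain ⟨p, hp1, _⟩ := hs
  apply (smul_eq_iff g (p (QuotientGroup.mk 1))).mp
  rw [← hp1, smul_eq_self hg]

/-- The conclusion from the towers. -/
theorem of_towers (hΓ : Amalg φ o) (A : ∀ i, Subgroup (G i))
    (hT : ∀ i, TT (A i)) (c0 : H)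
    (hc0 : ∀ k h, φ k h ∈ A k ↔ ∃ n : ℤ, h = c0 ^ n) (ψ : ∀ i, G i → ℤ)
    (hψ : ∀ i, HomOn (A i) (ψ i)) (hψc : ∀ i, ψ i (φ i c0) = 1)
    {K : Subgroup Γ} (hKn : K.Normal)
    (hE : ∀ i, ∃ b, ∀ k (g : G k), o k g ∈ tw K b → g ∈ tw (A k) i) : TT K := by
  have hE' : ∀ k (g : G k), (∀ i, o k g ∈ tw K i) → ∀ i, g ∈ tw (A k) i := by
    intro k g hg i
    obtain ⟨b, hb⟩ := hE i
    exact hb k g (hg b)
  exact walk hΓ (fun i => tw K i) (fun i => tw_normal K i) (fun i => tw_succ_le K i)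
    (fun i f hf x hx => ⟨ex i, two_le_ex i, dvd_of_mem hx hf⟩)
    (fun k g hg => by
      have h1 : g = 1 := hT k g (hE' k g hg)
      rw [h1, map_one])
    (fun k g hg => by
      obtain ⟨b0, hb0⟩ := hE 0
      obtain ⟨h0, hh0⟩ := hg b0
      let u0 : G k := (φ k h0)⁻¹ * g
      have hu0 : u0 ∈ A k := by
        apply hb0
        show o k ((φ k h0)⁻¹ * g) ∈ tw K b0
        rw [map_mul, map_inv]
        exact hh0
      have hc0A : φ k c0 ∈ A k := (hc0 k c0).mpr ⟨1, (zpow_one c0).symm⟩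
      have key : ∀ i, (φ k c0 ^ ψ k u0)⁻¹ * u0 ∈ tw (A k) i := by
        intro i
        obtain ⟨b, hb⟩ := hE i
        obtain ⟨h, hh⟩ := hg b
        have h1 : (φ k h)⁻¹ * g ∈ tw (A k) i := by
          apply hb
          rw [map_mul, map_inv]
          exact hh
        have h2 : φ k (h⁻¹ * h0) ∈ A k := by
          have h3 := (A k).mul_mem (tw_le _ i h1) ((A k).inv_mem hu0)
          convert h3 using 1
          show _ = (φ k h)⁻¹ * g * ((φ k h0)⁻¹ * g)⁻¹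
          rw [map_mul, map_inv]
          group
        obtain ⟨q, hq⟩ := (hc0 k _).mp h2
        have h4 : (φ k h)⁻¹ * g = φ k c0 ^ q * u0 := by
          rw [← map_zpow, ← hq, map_mul, map_inv]
          show _ = (φ k h)⁻¹ * φ k h0 * ((φ k h0)⁻¹ * g)
          group
        rw [h4] at h1
        have hρ : MulOn (A k) (fun x : G k => φ k c0 ^ ψ k x) := by
          intro x hx y hy
          show φ k c0 ^ ψ k (x * y) = φ k c0 ^ ψ k x * φ k c0 ^ ψ k y
          rw [hψ k x hx y hy, zpow_add]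
        have h5 := tw_map (L := A k) hρ (fun x _ => (A k).zpow_mem hc0A _) i _ h1
        have h6 : ψ k (φ k c0 ^ q * u0) = q + ψ k u0 := by
          rw [hψ k _ ((A k).zpow_mem hc0A _) _ hu0, (hψ k).zpow hc0A, hψc, mul_one]
        have h7 := (tw (A k) i).mul_mem ((tw (A k) i).inv_mem h5) h1
        convert h7 using 1
        show _ = (φ k c0 ^ ψ k (φ k c0 ^ q * u0))⁻¹ * (φ k c0 ^ q * u0)
        rw [h6, zpow_add]
        group
      have h8 := hT k _ key
      rw [inv_mul_eq_one] at h8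
      refine ⟨h0 * c0 ^ ψ k u0, ?_⟩
      rw [map_mul, map_zpow, h8]
      show φ k h0 * ((φ k h0)⁻¹ * g) = g
      group)

end Pool.Agent.U480.RF
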